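import Mathlib
import Pool.Agent.Q113.Tower

/-!
# 3-uniform hypergraphs without 2-regular subgraphs on six vertices

For `MP_bc9e10_co`.  For infinitely many `n` there is a 3-uniform hypergraph with `n.choose 2`
edges and without a 2-regular subgraph on six vertices: take all triples inside the blocks of a
linear space with blocks of size five in which no four blocks form an O'Nan configuration.
-/

namespace Pool.Agent.Results.MP_bc9e10_co.TripleCounterexample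

open Finset Pool.Agent.Q113.AntiONan Pool.Agent.Q113.Tower

/-- `H` is a `k`-uniform hypergraph on the vertex set `Fin n`. -/
def IsUniform {n : ℕ} (k : ℕ) (H : Finset (Finset (Fin n))) : Prop := ∀ e ∈ H, e.card = k

/-- `F` is 2-regular: every vertex of `V(F)`, the union of the edges of `F`, lies in exactly two
edges of `F`. -/
def IsTwoRegular {n : ℕ} (F : Finset (Finset (Fin n))) : Prop :=
  ∀ v ∈ F.biUnion id, (F.filter (fun e => v ∈ e)).card = 2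

/-- `H` has a 2-regular subgraph on exactly `m` vertices. -/
def HasTwoRegularSubgraphOn {n : ℕ} (H : Finset (Finset (Fin n))) (m : ℕ) : Prop :=
  ∃ F ⊆ H, IsTwoRegular F ∧ (F.biUnion id).card = m

/-- all triples inside blocks -/
def triples {n : ℕ} (B : Finset (Finset (Fin n))) : Finset (Finset (Fin n)) :=
  B.biUnion (powersetCard 3)

lemma mem_triples {n : ℕ} {B : Finset (Finset (Fin n))} {e : Finset (Fin n)} :
    e ∈ triples B ↔ ∃ b ∈ B, e ⊆ b ∧ e.card = 3 := by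
  simp [triples, Finset.mem_powersetCard]

lemma card_triples {n : ℕ} {B : Finset (Finset (Fin n))} (hB : IsAntiONan 5 B) :
    (triples B).card = n.choose 2 := by
  have hdisj : ∀ r, 2 ≤ r → ∀ b ∈ B, ∀ c ∈ B, b ≠ c →
      Disjoint (powersetCard r b) (powersetCard r c) := by
    intro r hr b hb c hc hbc
    rw [Finset.disjoint_left]
    intro e he he'
    rw [Finset.mem_powersetCard] at he he'
    have h1 : 1 < e.card := by omega
    obtain ⟨x, hx, y, hy, hxy⟩ := Finset.one_lt_card.1 h1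
    exact hbc (hB.unique_block b hb c hc x y hxy (he.1 hx) (he.1 hy) (he'.1 hx) (he'.1 hy))
  have h3 : (triples B).card = B.card * 10 := by
    rw [triples, Finset.card_biUnion (hdisj 3 (by norm_num)), Finset.sum_const_nat]
    intro b hb
    rw [Finset.card_powersetCard, hB.card_block b hb]
    rfl
  have h2 : powersetCard 2 (univ : Finset (Fin n)) = B.biUnion (powersetCard 2) := by
    ext e
    rw [Finset.mem_powersetCard, Finset.mem_biUnion]
    constructor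
    · rintro ⟨-, he⟩
      obtain ⟨x, y, hxy, rfl⟩ := Finset.card_eq_two.1 he
      obtain ⟨b, hb, hx, hy⟩ := hB.exists_block x y hxy
      refine ⟨b, hb, Finset.mem_powersetCard.2 ⟨?_, he⟩⟩
      intro z hz
      rcases Finset.mem_insert.1 hz with rfl | hz
      · exact hx
      · rw [Finset.mem_singleton.1 hz]; exact hy
    · rintro ⟨b, _, he⟩
      exact ⟨Finset.subset_univ _, (Finset.mem_powersetCard.1 he).2⟩
  have h4 : n.choose 2 = B.card * 10 := by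
    have : (powersetCard 2 (univ : Finset (Fin n))).card = n.choose 2 := by
      rw [Finset.card_powersetCard, Finset.card_univ, Fintype.card_fin]
    rw [← this, h2, Finset.card_biUnion (hdisj 2 le_rfl), Finset.sum_const_nat]
    intro b hb
    rw [Finset.card_powersetCard, hB.card_block b hb]
    rfl
  rw [h3, h4]

/-- two different triples of a block system which share two points lie in the same block -/
lemma same_block {n : ℕ} {B : Finset (Finset (Fin n))} (hB : IsAntiONan 5 B)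
    {b c : Finset (Fin n)} (hb : b ∈ B) (hc : c ∈ B) {s : Finset (Fin n)} (hs : 2 ≤ s.card)
    (h1 : s ⊆ b) (h2 : s ⊆ c) : b = c := by
  obtain ⟨x, hx, y, hy, hxy⟩ := Finset.one_lt_card.1 (show 1 < s.card by omega)
  exact hB.unique_block b hb c hc x y hxy (h1 hx) (h1 hy) (h2 hx) (h2 hy)

/-- The crucial step: if two of the four triples lie in the same block, so does a third. -/
lemma third {n : ℕ} {B : Finset (Finset (Fin n))} (hB : IsAntiONan 5 B)
    {e₁ e₂ e₃ e₄ b b₃ b₄ : Finset (Fin n)} (hb : b ∈ B) (hb₃ : b₃ ∈ B) (hb₄ : b₄ ∈ B)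
    (h1 : e₁ ⊆ b) (h2 : e₂ ⊆ b) (h3 : e₃ ⊆ b₃) (h4 : e₄ ⊆ b₄)
    (c3 : e₃.card = 3) (c4 : e₄.card = 3) (h34 : e₃ ≠ e₄)
    (d3 : ∀ v ∈ e₃, v ∉ e₄ → v ∈ e₁ ∨ v ∈ e₂) (d4 : ∀ v ∈ e₄, v ∉ e₃ → v ∈ e₁ ∨ v ∈ e₂) :
    b₃ = b := by
  have hin3 : ∀ v ∈ e₃, v ∉ e₄ → v ∈ b := fun v hv hv' => (d3 v hv hv').elim (fun h => h1 h)
    (fun h => h2 h)
  have hin4 : ∀ v ∈ e₄, v ∉ e₃ → v ∈ b := fun v hv hv' => (d4 v hv hv').elim (fun h => h1 h)
    (fun h => h2 h)
  rcases Nat.lt_or_ge (e₃ ∩ e₄).card 2 with hc | hc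
  · have hs : 2 ≤ (e₃ \ e₄).card := by
      have := Finset.card_sdiff_add_card_inter e₃ e₄
      omega
    apply same_block hB hb₃ hb hs
    · exact fun v hv => h3 (Finset.mem_sdiff.1 hv).1
    · exact fun v hv => hin3 v (Finset.mem_sdiff.1 hv).1 (Finset.mem_sdiff.1 hv).2
  · have h34b : b₃ = b₄ := same_block hB hb₃ hb₄ hc (fun v hv => h3 (Finset.mem_inter.1 hv).1)
      (fun v hv => h4 (Finset.mem_inter.1 hv).2)
    have hne3 : (e₃ \ e₄).Nonempty := by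
      rw [Finset.nonempty_iff_ne_empty]
      intro h0
      exact h34 (Finset.eq_of_subset_of_card_le (Finset.sdiff_eq_empty_iff_subset.1 h0) (by omega))
    have hne4 : (e₄ \ e₃).Nonempty := by
      rw [Finset.nonempty_iff_ne_empty]
      intro h0
      exact h34
        (Finset.eq_of_subset_of_card_le (Finset.sdiff_eq_empty_iff_subset.1 h0) (by omega)).symm
    obtain ⟨x, hx⟩ := hne3
    obtain ⟨y, hy⟩ := hne4
    rw [Finset.mem_sdiff] at hx hy
    have hxy : x ≠ y := fun h => hx.2 (h ▸ hy.1)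
    apply hB.unique_block b₃ hb₃ b hb x y hxy (h3 hx.1)
    · rw [h34b]; exact h4 hy.1
    · exact hin3 x hx.1 hx.2
    · exact hin4 y hy.1 hy.2

lemma orA {a b c : Prop} (h : a ∨ b ∨ c) (hn : ¬ a) : b ∨ c := h.resolve_left hn

lemma orB {a b c : Prop} (h : a ∨ b ∨ c) (hn : ¬ b) : a ∨ c := by
  rcases h with h | h | h
  · exact Or.inl h
  · exact absurd h hn
  · exact Or.inr h

lemma orC {a b c : Prop} (h : a ∨ b ∨ c) (hn : ¬ c) : a ∨ b := by
  rcases h with h | h | h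
  · exact Or.inl h
  · exact Or.inr h
  · exact absurd h hn

lemma no_two_regular {n : ℕ} {B : Finset (Finset (Fin n))} (hB : IsAntiONan 5 B) :
    ¬ HasTwoRegularSubgraphOn (triples B) 6 := by
  rintro ⟨F, hF, hreg, hcard⟩
  -- `F` has four edges
  have hF3 : ∀ e ∈ F, e.card = 3 := fun e he => by
    obtain ⟨b, _, _, h⟩ := mem_triples.1 (hF he)
    exact h
  have hF4 : F.card = 4 := by
    have h1 := Finset.sum_card_bipartiteAbove_eq_sum_card_bipartiteBelow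
      (s := F.biUnion id) (t := F) (fun v e => v ∈ e)
    have h2 : ∑ v ∈ F.biUnion id, (Finset.bipartiteAbove (fun v e => v ∈ e) F v).card = 12 := by
      rw [Finset.sum_const_nat (m := 2)]
      · rw [hcard]
      · intro v hv
        exact hreg v hv
    have h3 : ∑ e ∈ F, (Finset.bipartiteBelow (fun v e => v ∈ e) (F.biUnion id) e).card =
        F.card * 3 := by
      apply Finset.sum_const_nat
      intro e he
      rw [← hF3 e he]
      congr 1
      ext v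
      rw [Finset.mem_bipartiteBelow]
      constructor
      · exact fun h => h.2
      · exact fun h => ⟨Finset.mem_biUnion.2 ⟨e, he, h⟩, h⟩
    omega
  obtain ⟨e₁, e₂, e₃, e₄, h12, h13, h14, h23, h24, h34, rfl⟩ := Finset.card_eq_four.1 hF4
  have hm1 : e₁ ∈ ({e₁, e₂, e₃, e₄} : Finset (Finset (Fin n))) := by simp
  have hm2 : e₂ ∈ ({e₁, e₂, e₃, e₄} : Finset (Finset (Fin n))) := by simp
  have hm3 : e₃ ∈ ({e₁, e₂, e₃, e₄} : Finset (Finset (Fin n))) := by simp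
  have hm4 : e₄ ∈ ({e₁, e₂, e₃, e₄} : Finset (Finset (Fin n))) := by simp
  obtain ⟨b₁, hb₁, s1, c1⟩ := mem_triples.1 (hF hm1)
  obtain ⟨b₂, hb₂, s2, c2⟩ := mem_triples.1 (hF hm2)
  obtain ⟨b₃, hb₃, s3, c3⟩ := mem_triples.1 (hF hm3)
  obtain ⟨b₄, hb₄, s4, c4⟩ := mem_triples.1 (hF hm4)
  -- degrees
  have hdeg : ∀ v, ∀ e ∈ ({e₁, e₂, e₃, e₄} : Finset (Finset (Fin n))), v ∈ e →
      (({e₁, e₂, e₃, e₄} : Finset (Finset (Fin n))).filter (fun e => v ∈ e)).card = 2 := by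
    intro v e he hv
    exact hreg v (Finset.mem_biUnion.2 ⟨e, he, hv⟩)
  -- every vertex of an edge lies in another edge
  have hother : ∀ v, ∀ e ∈ ({e₁, e₂, e₃, e₄} : Finset (Finset (Fin n))), v ∈ e →
      ∃ f ∈ ({e₁, e₂, e₃, e₄} : Finset (Finset (Fin n))), f ≠ e ∧ v ∈ f := by
    intro v e he hv
    have h2 := hdeg v e he hv
    have hmem : e ∈ ({e₁, e₂, e₃, e₄} : Finset (Finset (Fin n))).filter (fun e => v ∈ e) :=
      Finset.mem_filter.2 ⟨he, hv⟩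
    have h1lt : 1 < (({e₁, e₂, e₃, e₄} : Finset (Finset (Fin n))).filter
        (fun e => v ∈ e)).card := by omega
    obtain ⟨f, hf, hfe⟩ := Finset.exists_mem_ne h1lt e
    rw [Finset.mem_filter] at hf
    exact ⟨f, hf.1, hfe, hf.2⟩
  -- no vertex lies in three edges
  have hthree : ∀ v, ∀ e ∈ ({e₁, e₂, e₃, e₄} : Finset (Finset (Fin n))),
      ∀ f ∈ ({e₁, e₂, e₃, e₄} : Finset (Finset (Fin n))),
      ∀ g ∈ ({e₁, e₂, e₃, e₄} : Finset (Finset (Fin n))), e ≠ f → e ≠ g → f ≠ g →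
      v ∈ e → v ∈ f → v ∈ g → False := by
    intro v e he f hf g hg hef heg hfg hve hvf hvg
    have h2 := hdeg v e he hve
    have hsub : ({e, f, g} : Finset (Finset (Fin n))) ⊆
        ({e₁, e₂, e₃, e₄} : Finset (Finset (Fin n))).filter (fun e => v ∈ e) := by
      intro x hx
      simp only [Finset.mem_insert, Finset.mem_singleton] at hx
      rcases hx with rfl | rfl | rfl
      · exact Finset.mem_filter.2 ⟨he, hve⟩
      · exact Finset.mem_filter.2 ⟨hf, hvf⟩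
      · exact Finset.mem_filter.2 ⟨hg, hvg⟩
    have := Finset.card_le_card hsub
    rw [h2, Finset.card_eq_three.2 ⟨e, f, g, hef, heg, hfg, rfl⟩] at this
    omega
  have o1 : ∀ v ∈ e₁, v ∈ e₂ ∨ v ∈ e₃ ∨ v ∈ e₄ := by
    intro v hv
    obtain ⟨f, hf, hne, hvf⟩ := hother v e₁ hm1 hv
    simp only [Finset.mem_insert, Finset.mem_singleton] at hf
    rcases hf with rfl | rfl | rfl | rfl
    · exact absurd rfl hne
    · exact Or.inl hvf
    · exact Or.inr (Or.inl hvf)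
    · exact Or.inr (Or.inr hvf)
  have o2 : ∀ v ∈ e₂, v ∈ e₁ ∨ v ∈ e₃ ∨ v ∈ e₄ := by
    intro v hv
    obtain ⟨f, hf, hne, hvf⟩ := hother v e₂ hm2 hv
    simp only [Finset.mem_insert, Finset.mem_singleton] at hf
    rcases hf with rfl | rfl | rfl | rfl
    · exact Or.inl hvf
    · exact absurd rfl hne
    · exact Or.inr (Or.inl hvf)
    · exact Or.inr (Or.inr hvf)
  have o3 : ∀ v ∈ e₃, v ∈ e₁ ∨ v ∈ e₂ ∨ v ∈ e₄ := by
    intro v hv
    obtain ⟨f, hf, hne, hvf⟩ := hother v e₃ hm3 hv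
    simp only [Finset.mem_insert, Finset.mem_singleton] at hf
    rcases hf with rfl | rfl | rfl | rfl
    · exact Or.inl hvf
    · exact Or.inr (Or.inl hvf)
    · exact absurd rfl hne
    · exact Or.inr (Or.inr hvf)
  have o4 : ∀ v ∈ e₄, v ∈ e₁ ∨ v ∈ e₂ ∨ v ∈ e₃ := by
    intro v hv
    obtain ⟨f, hf, hne, hvf⟩ := hother v e₄ hm4 hv
    simp only [Finset.mem_insert, Finset.mem_singleton] at hf
    rcases hf with rfl | rfl | rfl | rfl
    · exact Or.inl hvf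
    · exact Or.inr (Or.inl hvf)
    · exact Or.inr (Or.inr hvf)
    · exact absurd rfl hne
  -- if two blocks agree, then all agree
  have hall : (b₁ = b₂ ∨ b₁ = b₃ ∨ b₁ = b₄ ∨ b₂ = b₃ ∨ b₂ = b₄ ∨ b₃ = b₄) →
      b₂ = b₁ ∧ b₃ = b₁ ∧ b₄ = b₁ := by
    rintro (h | h | h | h | h | h)
    · exact ⟨h.symm,
        third hB hb₁ hb₃ hb₄ s1 (h ▸ s2) s3 s4 c3 c4 h34
          (fun v hv hv' => orC (o3 v hv) hv') (fun v hv hv' => orC (o4 v hv) hv'),
        third hB hb₁ hb₄ hb₃ s1 (h ▸ s2) s4 s3 c4 c3 h34.symm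
          (fun v hv hv' => orC (o4 v hv) hv') (fun v hv hv' => orC (o3 v hv) hv')⟩
    · exact ⟨third hB hb₁ hb₂ hb₄ s1 (h ▸ s3) s2 s4 c2 c4 h24
          (fun v hv hv' => orC (o2 v hv) hv') (fun v hv hv' => orB (o4 v hv) hv'), h.symm,
        third hB hb₁ hb₄ hb₂ s1 (h ▸ s3) s4 s2 c4 c2 h24.symm
          (fun v hv hv' => orB (o4 v hv) hv') (fun v hv hv' => orC (o2 v hv) hv')⟩
    · exact ⟨third hB hb₁ hb₂ hb₃ s1 (h ▸ s4) s2 s3 c2 c3 h23
          (fun v hv hv' => orB (o2 v hv) hv') (fun v hv hv' => orB (o3 v hv) hv'),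
        third hB hb₁ hb₃ hb₂ s1 (h ▸ s4) s3 s2 c3 c2 h23.symm
          (fun v hv hv' => orB (o3 v hv) hv') (fun v hv hv' => orB (o2 v hv) hv'), h.symm⟩
    · have k1 : b₁ = b₂ := third hB hb₂ hb₁ hb₄ s2 (h ▸ s3) s1 s4 c1 c4 h14
        (fun v hv hv' => orC (o1 v hv) hv') (fun v hv hv' => orA (o4 v hv) hv')
      have k4 : b₄ = b₂ := third hB hb₂ hb₄ hb₁ s2 (h ▸ s3) s4 s1 c4 c1 h14.symm
        (fun v hv hv' => orA (o4 v hv) hv') (fun v hv hv' => orC (o1 v hv) hv')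
      exact ⟨k1.symm, by rw [k1, h], by rw [k1, k4]⟩
    · have k1 : b₁ = b₂ := third hB hb₂ hb₁ hb₃ s2 (h ▸ s4) s1 s3 c1 c3 h13
        (fun v hv hv' => orB (o1 v hv) hv') (fun v hv hv' => orA (o3 v hv) hv')
      have k3 : b₃ = b₂ := third hB hb₂ hb₃ hb₁ s2 (h ▸ s4) s3 s1 c3 c1 h13.symm
        (fun v hv hv' => orA (o3 v hv) hv') (fun v hv hv' => orB (o1 v hv) hv')
      exact ⟨k1.symm, by rw [k1, k3], by rw [k1, h]⟩
    · have k1 : b₁ = b₃ := third hB hb₃ hb₁ hb₂ s3 (h ▸ s4) s1 s2 c1 c2 h12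
        (fun v hv hv' => orA (o1 v hv) hv') (fun v hv hv' => orA (o2 v hv) hv')
      have k2 : b₂ = b₃ := third hB hb₃ hb₂ hb₁ s3 (h ▸ s4) s2 s1 c2 c1 h12.symm
        (fun v hv hv' => orA (o2 v hv) hv') (fun v hv hv' => orA (o1 v hv) hv')
      exact ⟨by rw [k1, k2], k1.symm, by rw [k1, h]⟩
  by_cases hE : b₁ = b₂ ∨ b₁ = b₃ ∨ b₁ = b₄ ∨ b₂ = b₃ ∨ b₂ = b₄ ∨ b₃ = b₄
  · obtain ⟨k2, k3, k4⟩ := hall hE
    subst k2
    subst k3
    subst k4
    have hsub : (({e₁, e₂, e₃, e₄} : Finset (Finset (Fin n))).biUnion id) ⊆ b₄ := by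
      intro v hv
      obtain ⟨e, he, hve⟩ := Finset.mem_biUnion.1 hv
      simp only [Finset.mem_insert, Finset.mem_singleton] at he
      rcases he with rfl | rfl | rfl | rfl
      · exact s1 hve
      · exact s2 hve
      · exact s3 hve
      · exact s4 hve
    have := Finset.card_le_card hsub
    rw [hcard, hB.card_block _ hb₄] at this
    omega
  · push Not at hE
    obtain ⟨n12, n13, n14, n23, n24, n34⟩ := hE
    -- two triples in different blocks share at most one point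
    have hle : ∀ {e f b c : Finset (Fin n)}, b ∈ B → c ∈ B → e ⊆ b → f ⊆ c → b ≠ c →
        (e ∩ f).card ≤ 1 := by
      intro e f b c hb hc he hf hbc
      by_contra hlt
      apply hbc
      exact same_block hB hb hc (show 2 ≤ (e ∩ f).card by omega)
        (fun v hv => he (Finset.mem_inter.1 hv).1) (fun v hv => hf (Finset.mem_inter.1 hv).2)
    have hmeet : ∀ {e f g h : Finset (Fin n)}, e.card = 3 → (∀ v ∈ e, v ∈ f ∨ v ∈ g ∨ v ∈ h) →
        (e ∩ f).card ≤ 1 → (e ∩ g).card ≤ 1 → (e ∩ h).card ≤ 1 →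
        (∃ p, p ∈ e ∧ p ∈ f) ∧ (∃ p, p ∈ e ∧ p ∈ g) ∧ (∃ p, p ∈ e ∧ p ∈ h) := by
      intro e f g h he hcov h1 h2 h3
      have hsub : e ⊆ (e ∩ f) ∪ ((e ∩ g) ∪ (e ∩ h)) := by
        intro v hv
        rcases hcov v hv with h | h | h
        · exact Finset.mem_union_left _ (Finset.mem_inter.2 ⟨hv, h⟩)
        · exact Finset.mem_union_right _ (Finset.mem_union_left _ (Finset.mem_inter.2 ⟨hv, h⟩))
        · exact Finset.mem_union_right _ (Finset.mem_union_right _ (Finset.mem_inter.2 ⟨hv, h⟩))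
      have h4 := Finset.card_le_card hsub
      have h5 := Finset.card_union_le (e ∩ f) ((e ∩ g) ∪ (e ∩ h))
      have h6 := Finset.card_union_le (e ∩ g) (e ∩ h)
      have hex : ∀ s : Finset (Fin n), (e ∩ s).card = 1 → ∃ p, p ∈ e ∧ p ∈ s := by
        intro s hs
        have : (e ∩ s).Nonempty := by rw [← Finset.card_pos]; omega
        obtain ⟨p, hp⟩ := this
        exact ⟨p, (Finset.mem_inter.1 hp).1, (Finset.mem_inter.1 hp).2⟩
      exact ⟨hex f (by omega), hex g (by omega), hex h (by omega)⟩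
    obtain ⟨⟨p₁₂, x1, x2⟩, ⟨p₁₃, x3, x4⟩, ⟨p₁₄, x5, x6⟩⟩ := hmeet c1 o1
      (hle hb₁ hb₂ s1 s2 n12) (hle hb₁ hb₃ s1 s3 n13) (hle hb₁ hb₄ s1 s4 n14)
    obtain ⟨-, ⟨p₂₃, x7, x8⟩, ⟨p₂₄, x9, x10⟩⟩ := hmeet c2 o2
      (hle hb₂ hb₁ s2 s1 n12.symm) (hle hb₂ hb₃ s2 s3 n23) (hle hb₂ hb₄ s2 s4 n24)
    obtain ⟨-, -, ⟨p₃₄, x11, x12⟩⟩ := hmeet c3 o3
      (hle hb₃ hb₁ s3 s1 n13.symm) (hle hb₃ hb₂ s3 s2 n23.symm) (hle hb₃ hb₄ s3 s4 n34)
    refine hB.onan b₁ hb₁ b₂ hb₂ b₃ hb₃ b₄ hb₄ n12 n13 n14 n23 n24 n34 p₁₂ p₁₃ p₁₄ p₂₃ p₂₄ p₃₄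
      (s1 x1) (s2 x2) (s1 x3) (s3 x4) (s1 x5) (s4 x6) (s2 x7) (s3 x8) (s2 x9) (s4 x10) (s3 x11)
      (s4 x12) ?_
    have T := hthree
    simp only [List.nodup_cons, List.mem_cons, List.not_mem_nil, or_false, not_or,
      List.nodup_nil, and_true, not_false_eq_true]
    refine ⟨⟨?_, ?_, ?_, ?_, ?_⟩, ⟨?_, ?_, ?_, ?_⟩, ⟨?_, ?_, ?_⟩, ⟨?_, ?_⟩, ?_⟩
    · rintro rfl; exact T _ e₁ hm1 e₂ hm2 e₃ hm3 h12 h13 h23 x1 x2 x4
    · rintro rfl; exact T _ e₁ hm1 e₂ hm2 e₄ hm4 h12 h14 h24 x1 x2 x6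
    · rintro rfl; exact T _ e₁ hm1 e₂ hm2 e₃ hm3 h12 h13 h23 x1 x2 x8
    · rintro rfl; exact T _ e₁ hm1 e₂ hm2 e₄ hm4 h12 h14 h24 x1 x2 x10
    · rintro rfl; exact T _ e₁ hm1 e₂ hm2 e₃ hm3 h12 h13 h23 x1 x2 x11
    · rintro rfl; exact T _ e₁ hm1 e₃ hm3 e₄ hm4 h13 h14 h34 x3 x4 x6
    · rintro rfl; exact T _ e₁ hm1 e₂ hm2 e₃ hm3 h12 h13 h23 x3 x7 x4
    · rintro rfl; exact T _ e₁ hm1 e₂ hm2 e₃ hm3 h12 h13 h23 x3 x9 x4
    · rintro rfl; exact T _ e₁ hm1 e₃ hm3 e₄ hm4 h13 h14 h34 x3 x4 x12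
    · rintro rfl; exact T _ e₁ hm1 e₂ hm2 e₄ hm4 h12 h14 h24 x5 x7 x6
    · rintro rfl; exact T _ e₁ hm1 e₂ hm2 e₄ hm4 h12 h14 h24 x5 x9 x6
    · rintro rfl; exact T _ e₁ hm1 e₃ hm3 e₄ hm4 h13 h14 h34 x5 x11 x6
    · rintro rfl; exact T _ e₂ hm2 e₃ hm3 e₄ hm4 h23 h24 h34 x7 x8 x10
    · rintro rfl; exact T _ e₂ hm2 e₃ hm3 e₄ hm4 h23 h24 h34 x7 x8 x12
    · rintro rfl; exact T _ e₂ hm2 e₃ hm3 e₄ hm4 h23 h24 h34 x9 x11 x10

/-- For infinitely many `n` there is a 3-uniform hypergraph `H` on `n` vertices with no 2-regular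
subgraph on `6 = 2·3` vertices and with `C(n,2)` edges, which is more than
`C(n-1,2) + ⌊(n-1)/3⌋`. -/
theorem result :
    ∀ N : ℕ, ∃ n ≥ N, ∃ H : Finset (Finset (Fin n)),
      IsUniform 3 H ∧ ¬ HasTwoRegularSubgraphOn H (2 * 3) ∧ H.card = n.choose 2 ∧
      (n - 1).choose (3 - 1) + (n - 1) / 3 < H.card := by
  intro N
  obtain ⟨B, hB⟩ := tower_fin N
  have hge : N ≤ (4 ^ 3 ^ N) ^ 3 + 1 := by
    have h1 : N < 3 ^ N := Nat.lt_pow_self (by norm_num)
    have h2 : 3 ^ N < 4 ^ 3 ^ N := Nat.lt_pow_self (by norm_num)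
    have h3 : 4 ^ 3 ^ N ≤ (4 ^ 3 ^ N) ^ 3 := Nat.le_self_pow (by norm_num) _
    omega
  have hge2 : 2 ≤ (4 ^ 3 ^ N) ^ 3 := by
    have h1 : 4 ^ 1 ≤ 4 ^ 3 ^ N :=
      Nat.pow_le_pow_right (by norm_num) (Nat.one_le_pow _ _ (by norm_num))
    have h3 : 4 ^ 3 ^ N ≤ (4 ^ 3 ^ N) ^ 3 := Nat.le_self_pow (by norm_num) _
    omega
  refine ⟨(4 ^ 3 ^ N) ^ 3 + 1, hge, triples B, ?_, no_two_regular hB, card_triples hB, ?_⟩
  · intro e he
    obtain ⟨b, _, _, h⟩ := mem_triples.1 he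
    exact h
  · rw [card_triples hB]
    generalize (4 ^ 3 ^ N) ^ 3 = m at hge2
    have h1 : (m + 1).choose 2 = m.choose 1 + m.choose 2 := Nat.choose_succ_succ m 1
    rw [h1, Nat.choose_one_right, Nat.add_sub_cancel]
    have : m.choose (3 - 1) = m.choose 2 := rfl
    rw [this]
    omega

end Pool.Agent.Results.MP_bc9e10_co.TripleCounterexample
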